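import Pool.Agent.Helper91.ZC.FinalHyp

/-!
Exactness of the local-global complex for zero-cycles on hypersurfaces of low degree over a global
function field.
-/

open ZC in
/-- Let `k` be a function field of one variable over the finite field `F` and let `X` be the
hypersurface defined in projective `n`-space over `k` by a form of degree `d > 0` with
`2 * (1 ^ 2 + 2 ^ 2 + … + (d - 2) ^ 2) + d ^ 2 ≤ n`. Then `X` has a rational point `x` such that
every family of local zero-cycle classes `z v` in the limits of `CH0 (X over k_v) / m`, which is
orthogonal to the Brauer classes of the cyclic algebras given by an element of `k` and a constant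
extension of `k`, is the image of the family of global classes `c m • x` for a compatible family of
integers `c m`. -/
theorem Pool.Agent.Results.MP_bd895b_nt.Hypersurface.result.{u} (F k : Type u) [Field F] [Finite F]
    [Field k] [Algebra F k] (hk : IsCurveField F k) {n : ℕ} (X : ProjVar k n 1)
    (hd : 0 < X.d 0) (hn : 2 * ∑ j ∈ Finset.range (X.d 0 - 1), j ^ 2 + X.d 0 ^ 2 ≤ n) :
    ∃ (x : Fin (n + 1) → k) (hx : X.IsPt x), ∀ z : ∀ v : Place F k, ℕ → CH0 (X.map v.emb),
      (∀ v, IsCompat (z v)) →
      (∀ (f : k) (m : ℕ), f ≠ 0 → 0 < m → ∑ᶠ v : Place F k, constPairing v (z v m) f m = 0) →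
      ∃ c : ℕ → ℤ, IsCompat c ∧ ∀ (v : Place F k) (m : ℕ), 0 < m →
        ∃ g, c m • cls (X.map v.emb) (fun i => v.emb (x i)) (isPt_map X v.emb hx) - z v m =
          m • g :=
  main_hyp hk X hd hn
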