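import Pool.Agent.Helper72.ZC.Final

/-!
Exactness of the local-global complex for zero-cycles on varieties given by few forms of low
degree over a global function field.
-/

open ZC in
/-- Let `k` be a function field of one variable over the finite field `F` and let `X` be the
variety defined in projective `n`-space over `k` by forms of degrees `d i > 0` with
`∑ i, d i * (2 * (d i) ^ 2 + 1) ≤ 3 * n`. Then `X` has a rational point `x` such that every family
of local zero-cycle classes `z v` in the limits of `CH0 (X over k_v) / m`, which is orthogonal to
the Brauer classes of the cyclic algebras given by an element of `k` and a constant extension of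
`k`, is the image of the family of global classes `c m • x` for a compatible family of integers
`c m`. -/
theorem Pool.Agent.Results.MP_bd895b_nt.LowDegree.result.{u} (F k : Type u) [Field F] [Finite F]
    [Field k] [Algebra F k] (hk : IsCurveField F k) {n r : ℕ} (X : ProjVar k n r)
    (hd : ∀ i, 0 < X.d i) (hn : ∑ i, X.d i * (2 * X.d i ^ 2 + 1) ≤ 3 * n) :
    ∃ (x : Fin (n + 1) → k) (hx : X.IsPt x), ∀ z : ∀ v : Place F k, ℕ → CH0 (X.map v.emb),
      (∀ v, IsCompat (z v)) →
      (∀ (f : k) (m : ℕ), f ≠ 0 → 0 < m → ∑ᶠ v : Place F k, constPairing v (z v m) f m = 0) →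
      ∃ c : ℕ → ℤ, IsCompat c ∧ ∀ (v : Place F k) (m : ℕ), 0 < m →
        ∃ g, c m • cls (X.map v.emb) (fun i => v.emb (x i)) (isPt_map X v.emb hx) - z v m =
          m • g :=
  main hk X hd hn
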