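import Pool.Agent.Helper91.ZC.FinalHyp

/-!
Exactness of the local-global complex for zero-cycles on intersections of quadrics over a global
function field.
-/

open ZC in
/-- Let `k` be a function field of one variable over the finite field `F` and let `X` be the
variety defined in projective `n`-space over `k` by `r` quadratic forms, where `4 * r ≤ n` and
`6 * r ≤ n + 4`. Then `X` has a rational point `x` such that every family of local zero-cycle
classes `z v` in the limits of `CH0 (X over k_v) / m`, which is orthogonal to the Brauer classes of
the cyclic algebras given by an element of `k` and a constant extension of `k`, is the image of the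
family of global classes `c m • x` for a compatible family of integers `c m`. -/
theorem Pool.Agent.Results.MP_bd895b_nt.Quadrics.result.{u} (F k : Type u) [Field F] [Finite F]
    [Field k] [Algebra F k] (hk : IsCurveField F k) {n r : ℕ} (X : ProjVar k n r)
    (hd : ∀ i, X.d i = 2) (h4 : 4 * r ≤ n) (h6 : 6 * r ≤ n + 4) :
    ∃ (x : Fin (n + 1) → k) (hx : X.IsPt x), ∀ z : ∀ v : Place F k, ℕ → CH0 (X.map v.emb),
      (∀ v, IsCompat (z v)) →
      (∀ (f : k) (m : ℕ), f ≠ 0 → 0 < m → ∑ᶠ v : Place F k, constPairing v (z v m) f m = 0) →
      ∃ c : ℕ → ℤ, IsCompat c ∧ ∀ (v : Place F k) (m : ℕ), 0 < m →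
        ∃ g, c m • cls (X.map v.emb) (fun i => v.emb (x i)) (isPt_map X v.emb hx) - z v m =
          m • g :=
  main_quad hk X hd h4 h6
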